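import Mathlib

open MeasureTheory Filter Topology ProbabilityTheory Finset

namespace Pool.Agent.Results.MP_8be476_pr.NegativeCovariance

noncomputable section

/-! ### The model: `p_2 = p_9 = 1/2`, conductance `R` between two vertices of index `9`, conductance
`1` on all other edges.  Vertices are words (lists of natural numbers, first letter = first
generation); `ω w` is the index of the vertex `w`. -/

/-- index fields -/
abbrev Field : Type := List ℕ → ℕ

/-- the index law `p_2 = p_9 = 1/2` -/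
def idxLaw : Measure ℕ := (1 / 2 : ENNReal) • Measure.dirac 2 + (1 / 2 : ENNReal) • Measure.dirac 9

/-- independent indices -/
def law : Measure Field := Measure.infinitePi fun _ : List ℕ => idxLaw

/-- the (deterministic) conductance of an edge joining vertices of indices `k` and `m` -/
def xi (R : ℝ) (k m : ℕ) : ℝ := if k = 9 ∧ m = 9 then R else 1

/-- the field seen from the `i`-th child of the root -/
def sub (i : ℕ) (ω : Field) : Field := fun w => ω (i :: w)

/-- series law: `(1/a + 1/b)⁻¹ = a b / (a + b)` -/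
def ser (a b : ℝ) : ℝ := a * b / (a + b)

/-- `cond R n m ω`: effective conductance between the root and generation `n + 1` in the tree whose
root has `m` children and in which every other vertex `w` has `ω w` children -/
def cond (R : ℝ) : ℕ → ℕ → Field → ℝ
  | 0, m, ω => ∑ i ∈ range m, xi R (ω []) (ω [i])
  | n + 1, m, ω => ∑ i ∈ range m, ser (xi R (ω []) (ω [i])) (cond R n (ω [i]) (sub i ω))

/-- effective conductance from the root to infinity -/
def condInf (R : ℝ) (m : ℕ) (ω : Field) : ℝ := ⨅ n, cond R n m ω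

/-- `𝒞(T)`: the root of the augmented tree has `ω [] + 1` children -/
def condT (R : ℝ) (ω : Field) : ℝ := condInf R (ω [] + 1) ω

/-- `ξ_0`, the conductance of the edge from the root to its neighbour `w_0 = [0]` -/
def xi0 (R : ℝ) (ω : Field) : ℝ := xi R (ω []) (ω [0])

/-- `𝒞(T_0)`, with `T_0` the subtree rooted at `w_0` -/
def condT0 (R : ℝ) (ω : Field) : ℝ := condInf R (ω [0]) (sub 0 ω)

/-- `𝒞(T_0^*) = (1/ξ_0 + 1/𝒞(T_0))⁻¹` -/
def condT0star (R : ℝ) (ω : Field) : ℝ := ser (xi0 R ω) (condT0 R ω)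

/-! ### series law -/

theorem ser_nonneg {a b : ℝ} (ha : 0 < a) (hb : 0 ≤ b) : 0 ≤ ser a b := by
  unfold ser; positivity

theorem ser_pos {a b : ℝ} (ha : 0 < a) (hb : 0 < b) : 0 < ser a b := by
  unfold ser; positivity

theorem ser_le {a b : ℝ} (ha : 0 < a) (hb : 0 ≤ b) : ser a b ≤ a := by
  unfold ser
  rw [div_le_iff₀ (by linarith)]
  nlinarith

theorem ser_mono {a b c : ℝ} (ha : 0 < a) (hb : 0 ≤ b) (hbc : b ≤ c) : ser a b ≤ ser a c := by
  unfold ser
  rw [div_le_div_iff₀ (by linarith) (by linarith)]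
  nlinarith [mul_nonneg (mul_nonneg ha.le ha.le) (sub_nonneg.2 hbc)]

theorem ser_ge {a b : ℝ} (ha : 1 ≤ a) (hb : 1 ≤ b) : 1 / 2 ≤ ser a b := by
  unfold ser
  rw [le_div_iff₀ (by linarith)]
  nlinarith

variable {R : ℝ}

theorem xi_ge (hR : 1 ≤ R) (k m : ℕ) : 1 ≤ xi R k m := by
  unfold xi; split_ifs
  · exact hR
  · exact le_rfl

theorem xi_le (hR : 1 ≤ R) (k m : ℕ) : xi R k m ≤ R := by
  unfold xi; split_ifs
  · exact le_rfl
  · exact hR

theorem xi_pos (hR : 1 ≤ R) (k m : ℕ) : 0 < xi R k m := lt_of_lt_of_le one_pos (xi_ge hR k m)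

theorem cond_nonneg (hR : 1 ≤ R) (n m : ℕ) (ω : Field) : 0 ≤ cond R n m ω := by
  induction n generalizing m ω with
  | zero => exact Finset.sum_nonneg fun i _ => (xi_pos hR _ _).le
  | succ n ih => exact Finset.sum_nonneg fun i _ => ser_nonneg (xi_pos hR _ _) (ih _ _)

theorem cond_succ_le (hR : 1 ≤ R) (n m : ℕ) (ω : Field) : cond R (n + 1) m ω ≤ cond R n m ω := by
  induction n generalizing m ω with
  | zero => exact Finset.sum_le_sum fun i _ => ser_le (xi_pos hR _ _) (cond_nonneg hR _ _ _)
  | succ n ih =>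
    exact Finset.sum_le_sum fun i _ => ser_mono (xi_pos hR _ _) (cond_nonneg hR _ _ _) (ih _ _)

theorem cond_anti (hR : 1 ≤ R) (m : ℕ) (ω : Field) : Antitone fun n => cond R n m ω :=
  antitone_nat_of_succ_le fun n => cond_succ_le hR n m ω

theorem cond_bdd (hR : 1 ≤ R) (m : ℕ) (ω : Field) :
    BddBelow (Set.range fun n => cond R n m ω) :=
  ⟨0, by rintro _ ⟨n, rfl⟩; exact cond_nonneg hR n m ω⟩

theorem cond_tendsto (hR : 1 ≤ R) (m : ℕ) (ω : Field) :
    Tendsto (fun n => cond R n m ω) atTop (𝓝 (condInf R m ω)) :=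
  tendsto_atTop_ciInf (cond_anti hR m ω) (cond_bdd hR m ω)

theorem condInf_nonneg (hR : 1 ≤ R) (m : ℕ) (ω : Field) : 0 ≤ condInf R m ω :=
  le_ciInf fun n => cond_nonneg hR n m ω

/-- the conductance of the `i`-th branch -/
def branch (R : ℝ) (i : ℕ) (ω : Field) : ℝ :=
  ser (xi R (ω []) (ω [i])) (condInf R (ω [i]) (sub i ω))

theorem branch_nonneg (hR : 1 ≤ R) (i : ℕ) (ω : Field) : 0 ≤ branch R i ω :=
  ser_nonneg (xi_pos hR _ _) (condInf_nonneg hR _ _)

/-- parallel law at infinity -/
theorem condInf_eq (hR : 1 ≤ R) (m : ℕ) (ω : Field) :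
    condInf R m ω = ∑ i ∈ range m, branch R i ω := by
  have h1 : Tendsto (fun n => cond R (n + 1) m ω) atTop (𝓝 (condInf R m ω)) :=
    (cond_tendsto hR m ω).comp (tendsto_add_atTop_nat 1)
  refine tendsto_nhds_unique h1 ?_
  change Tendsto (fun n => ∑ i ∈ range m, ser (xi R (ω []) (ω [i])) (cond R n (ω [i]) (sub i ω)))
    atTop _
  refine tendsto_finsetSum _ fun i _ => ?_
  have h2 := cond_tendsto hR (ω [i]) (sub i ω)
  have h3 := xi_pos hR (ω []) (ω [i])
  have h4 := condInf_nonneg hR (ω [i]) (sub i ω)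
  unfold branch ser
  exact (h2.const_mul _).div (h2.const_add _) (by positivity)

/-- lower bound in a tree with at least binary branching -/
theorem cond_ge (hR : 1 ≤ R) (n m : ℕ) (ω : Field) (hm : 2 ≤ m) (hω : ∀ w, 2 ≤ ω w) :
    1 ≤ cond R n m ω := by
  have hm' : (2 : ℝ) ≤ m := by exact_mod_cast hm
  induction n generalizing m ω with
  | zero =>
    calc (1 : ℝ) ≤ ∑ i ∈ range m, (1 : ℝ) := by simp; omega
      _ ≤ _ := Finset.sum_le_sum fun i _ => xi_ge hR _ _
  | succ n ih =>
    calc (1 : ℝ) ≤ ∑ i ∈ range m, (1 / 2 : ℝ) := by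
          rw [Finset.sum_const, card_range, nsmul_eq_mul]; linarith
      _ ≤ _ := Finset.sum_le_sum fun i _ => by
          refine ser_ge (xi_ge hR _ _) (ih _ _ (hω _) (fun w => hω _) ?_)
          exact_mod_cast hω [i]

theorem condInf_ge (hR : 1 ≤ R) (m : ℕ) (ω : Field) (hm : 2 ≤ m) (hω : ∀ w, 2 ≤ ω w) :
    1 ≤ condInf R m ω := le_ciInf fun n => cond_ge hR n m ω hm hω

/-! ### shares -/

/-- the share of the `j`-th branch of the augmented tree -/
def share (R : ℝ) (j : ℕ) (ω : Field) : ℝ := branch R j ω / condT R ω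

theorem share_zero (ω : Field) : share R 0 ω = condT0star R ω / condT R ω := rfl

theorem condT_eq (hR : 1 ≤ R) (ω : Field) :
    condT R ω = ∑ i ∈ range (ω [] + 1), branch R i ω := condInf_eq hR _ _

theorem share_nonneg (hR : 1 ≤ R) (j : ℕ) (ω : Field) : 0 ≤ share R j ω :=
  div_nonneg (branch_nonneg hR _ _) (condInf_nonneg hR _ _)

theorem share_le (hR : 1 ≤ R) (j : ℕ) (ω : Field) (hj : j ≤ ω []) : share R j ω ≤ 1 := by
  unfold share
  refine div_le_one_of_le₀ ?_ (condInf_nonneg hR _ _)
  rw [condT_eq hR]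
  exact Finset.single_le_sum (fun i _ => branch_nonneg hR i ω) (mem_range.2 (by omega))

theorem share_sum (hR : 1 ≤ R) (ω : Field) (hω : ∀ w, 2 ≤ ω w) :
    ∑ j ∈ range (ω [] + 1), share R j ω = 1 := by
  unfold share
  rw [← Finset.sum_div, ← condT_eq hR]
  have h : 1 ≤ condT R ω := condInf_ge hR _ _ (by have := hω []; omega) hω
  exact div_self (by positivity)

/-! ### exchangeability -/

/-- exchange the first letters `0` and `j` -/
def sw (j : ℕ) : List ℕ → List ℕ
  | [] => []
  | i :: w => Equiv.swap 0 j i :: w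

theorem sw_sw (j : ℕ) (w : List ℕ) : sw j (sw j w) = w := by
  cases w with
  | nil => rfl
  | cons i w => simp [sw]

/-- the exchange as an equivalence -/
def swE (j : ℕ) : List ℕ ≃ List ℕ := ⟨sw j, sw j, sw_sw j, sw_sw j⟩

/-- exchange of two subtrees of the root -/
def tau (j : ℕ) (ω : Field) : Field := fun w => ω (sw j w)

instance : IsProbabilityMeasure idxLaw := by
  constructor
  simp only [idxLaw, Measure.coe_add, Measure.coe_smul, Pi.add_apply, Pi.smul_apply,
    measure_univ, smul_eq_mul, mul_one]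
  exact ENNReal.add_halves 1

instance : IsProbabilityMeasure law := by unfold law; infer_instance

theorem tau_mp (j : ℕ) : MeasurePreserving (tau j) law law := by
  have h := Measure.infinitePi_map_piCongrLeft (μ := fun _ : List ℕ => idxLaw) (swE j)
  refine ⟨by unfold tau; fun_prop, ?_⟩
  have e : (tau j : Field → Field) =
      (MeasurableEquiv.piCongrLeft (fun _ : List ℕ => ℕ) (swE j)) := by
    funext ω w
    rw [MeasurableEquiv.coe_piCongrLeft]
    have h1 := Equiv.piCongrLeft_apply_apply (fun _ : List ℕ => ℕ) (swE j) ω (sw j w)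
    have h2 : (swE j) (sw j w) = w := sw_sw j w
    rw [h2] at h1
    rw [h1]
    rfl
  rw [e]
  exact h

theorem tau_nil (j : ℕ) (ω : Field) : tau j ω [] = ω [] := rfl

theorem tau_one (j i : ℕ) (ω : Field) : tau j ω [i] = ω [Equiv.swap 0 j i] := rfl

theorem sub_tau (j i : ℕ) (ω : Field) : sub i (tau j ω) = sub (Equiv.swap 0 j i) ω := rfl

theorem branch_tau (j i : ℕ) (ω : Field) :
    branch R i (tau j ω) = branch R (Equiv.swap 0 j i) ω := rfl

theorem condT_tau (hR : 1 ≤ R) (j : ℕ) (ω : Field) (hj : j ≤ ω []) :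
    condT R (tau j ω) = condT R ω := by
  rw [condT_eq hR, condT_eq hR, tau_nil]
  refine Finset.sum_equiv (Equiv.swap 0 j) ?_ ?_
  · intro i
    simp only [mem_range]
    by_cases h0 : i = 0
    · subst h0; simp; omega
    · by_cases hij : i = j
      · subst hij; simp; omega
      · rw [Equiv.swap_apply_of_ne_of_ne h0 hij]
  · intro i _
    rw [branch_tau]

theorem share_tau (hR : 1 ≤ R) (j : ℕ) (ω : Field) (hj : j ≤ ω []) :
    share R 0 (tau j ω) = share R j ω := by
  unfold share
  rw [condT_tau hR j ω hj, branch_tau, Equiv.swap_apply_left]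

/-! ### measurability -/

theorem meas_param {F : ℕ → Field → ℝ} (hF : ∀ l, Measurable (F l)) {g : Field → ℕ}
    (hg : Measurable g) {h : Field → Field} (hh : Measurable h) :
    Measurable fun ω => F (g ω) (h ω) := by
  have h1 : Measurable fun p : ℕ × Field => F p.1 p.2 :=
    measurable_from_prod_countable_right hF
  exact h1.comp (hg.prodMk hh)

theorem meas_sub (i : ℕ) : Measurable (sub i) := by unfold sub; fun_prop

theorem meas_xi (R : ℝ) (i : ℕ) : Measurable fun ω : Field => xi R (ω []) (ω [i]) := by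
  have h : Measurable fun p : ℕ × ℕ => xi R p.1 p.2 := measurable_of_countable _
  have h1 : Measurable fun ω : Field => (ω [], ω [i]) :=
    (measurable_pi_apply _).prodMk (measurable_pi_apply _)
  exact h.comp h1

theorem meas_ser {f g : Field → ℝ} (hf : Measurable f) (hg : Measurable g) :
    Measurable fun ω => ser (f ω) (g ω) := (hf.mul hg).div (hf.add hg)

theorem meas_cond (R : ℝ) (n m : ℕ) : Measurable (cond R n m) := by
  induction n generalizing m with
  | zero =>
    change Measurable fun ω : Field => ∑ i ∈ range m, xi R (ω []) (ω [i])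
    exact Finset.measurable_fun_sum _ fun i _ => meas_xi R i
  | succ n ih =>
    change Measurable fun ω : Field => ∑ i ∈ range m, ser (xi R (ω []) (ω [i]))
      (cond R n (ω [i]) (sub i ω))
    exact Finset.measurable_fun_sum _ fun i _ => meas_ser (meas_xi R i)
      (meas_param ih (measurable_pi_apply _) (meas_sub i))

theorem meas_condInf (R : ℝ) (m : ℕ) : Measurable (condInf R m) :=
  Measurable.iInf fun n => meas_cond R n m

theorem meas_branch (R : ℝ) (i : ℕ) : Measurable (branch R i) :=
  meas_ser (meas_xi R i) (meas_param (meas_condInf R) (measurable_pi_apply _) (meas_sub i))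

theorem meas_condT (R : ℝ) : Measurable (condT R) := by
  have h : Measurable fun ω : Field => condInf R (ω [] + 1) ω :=
    meas_param (F := fun l => condInf R (l + 1)) (fun l => meas_condInf R (l + 1))
      (measurable_pi_apply _) measurable_id
  exact h

theorem meas_share (R : ℝ) (i : ℕ) : Measurable (share R i) :=
  (meas_branch R i).div (meas_condT R)

/-! ### expectations -/

theorem ae_two : ∀ᵐ ω ∂law, ∀ w, ω w = 2 ∨ ω w = 9 := by
  rw [ae_all_iff]
  intro w
  have h : ∀ᵐ k ∂idxLaw, k = 2 ∨ k = 9 := by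
    rw [ae_iff]
    simp [idxLaw]
  have h2 : MeasurePreserving (fun ω : Field => ω w) law idxLaw :=
    measurePreserving_eval_infinitePi _ w
  exact h2.quasiMeasurePreserving.ae h

theorem prob_nil (k : ℕ) (hk : k = 2 ∨ k = 9) : law.real {ω | ω [] = k} = 1 / 2 := by
  have h2 : MeasurePreserving (fun ω : Field => ω []) law idxLaw :=
    measurePreserving_eval_infinitePi _ []
  have h : law {ω | ω [] = k} = 1 / 2 := by
    have := h2.measure_preimage (measurableSet_singleton k).nullMeasurableSet
    change law ((fun ω : Field => ω []) ⁻¹' {k}) = _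
    rw [this]
    rcases hk with rfl | rfl <;> simp [idxLaw]
  rw [measureReal_def, h]; simp

theorem prob_pair (k m : ℕ) (hk : k = 2 ∨ k = 9) (hm : m = 2 ∨ m = 9) :
    law.real {ω | ω [] = k ∧ ω [0] = m} = 1 / 4 := by
  have h : law {ω | ω [] = k ∧ ω [0] = m} = 1 / 4 := by
    have h1 : {ω : Field | ω [] = k ∧ ω [0] = m} =
        Set.pi (({[], [0]} : Finset (List ℕ)) : Set (List ℕ))
          (fun w => if w = [] then {k} else {m}) := by
      ext ω
      simp
    rw [h1, law, Measure.infinitePi_pi]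
    · rw [Finset.prod_pair (by simp)]
      have e1 : idxLaw {k} = 1 / 2 := by rcases hk with rfl | rfl <;> simp [idxLaw]
      have e2 : idxLaw {m} = 1 / 2 := by rcases hm with rfl | rfl <;> simp [idxLaw]
      simp only [if_true, List.cons_ne_nil, if_false, e1, e2]
      rw [one_div, one_div, ← ENNReal.mul_inv (by simp) (by simp)]
      norm_num
    · intro i _
      split_ifs <;> exact measurableSet_singleton _
  rw [measureReal_def, h]; simp

/-- `ξ_j` times the share of branch `j`, on the event that the root has index `k` -/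
def G (R : ℝ) (k j : ℕ) (ω : Field) : ℝ :=
  if ω [] = k then xi R (ω []) (ω [j]) * share R j ω else 0

/-- the share of branch `j`, on the event that the root has index `k` -/
def H (R : ℝ) (k j : ℕ) (ω : Field) : ℝ := if ω [] = k then share R j ω else 0

theorem meas_nil (k : ℕ) : MeasurableSet {ω : Field | ω [] = k} :=
  measurable_pi_apply (X := fun _ : List ℕ => ℕ) [] (measurableSet_singleton k)

theorem G_int (hR : 1 ≤ R) (k j : ℕ) (hj : j ≤ k) : Integrable (G R k j) law := by
  refine Integrable.of_bound (Measurable.ite (meas_nil k)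
    ((meas_xi R j).mul (meas_share R j)) measurable_const).aestronglyMeasurable R
    (ae_of_all _ fun ω => ?_)
  unfold G
  split_ifs with h
  · rw [Real.norm_eq_abs, abs_of_nonneg (mul_nonneg (xi_pos hR _ _).le (share_nonneg hR _ _))]
    have h1 := share_le hR j ω (by omega)
    have h2 := xi_le hR (ω []) (ω [j])
    have h3 := share_nonneg hR j ω
    have h4 := xi_pos hR (ω []) (ω [j])
    nlinarith
  · simp; linarith

theorem H_int (hR : 1 ≤ R) (k j : ℕ) (hj : j ≤ k) : Integrable (H R k j) law := by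
  refine Integrable.of_bound (Measurable.ite (meas_nil k)
    (meas_share R j) measurable_const).aestronglyMeasurable 1
    (ae_of_all _ fun ω => ?_)
  unfold H
  split_ifs with h
  · rw [Real.norm_eq_abs, abs_of_nonneg (share_nonneg hR _ _)]
    exact share_le hR j ω (by omega)
  · simp

theorem G_exch (hR : 1 ≤ R) (k j : ℕ) (hj : j ≤ k) : ∫ ω, G R k j ω ∂law = ∫ ω, G R k 0 ω ∂law := by
  have h := integral_map (tau_mp j).measurable.aemeasurable (f := G R k 0)
    (by rw [(tau_mp j).map_eq]; exact (G_int hR k 0 (Nat.zero_le _)).1)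
  rw [(tau_mp j).map_eq] at h
  rw [h]
  refine integral_congr_ae (ae_of_all _ fun ω => ?_)
  change G R k j ω = G R k 0 (tau j ω)
  unfold G
  rw [tau_nil]
  by_cases hk : ω [] = k
  · rw [if_pos hk, if_pos hk, share_tau hR j ω (by omega), tau_one, Equiv.swap_apply_left]
  · rw [if_neg hk, if_neg hk]

theorem H_exch (hR : 1 ≤ R) (k j : ℕ) (hj : j ≤ k) : ∫ ω, H R k j ω ∂law = ∫ ω, H R k 0 ω ∂law := by
  have h := integral_map (tau_mp j).measurable.aemeasurable (f := H R k 0)
    (by rw [(tau_mp j).map_eq]; exact (H_int hR k 0 (Nat.zero_le _)).1)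
  rw [(tau_mp j).map_eq] at h
  rw [h]
  refine integral_congr_ae (ae_of_all _ fun ω => ?_)
  change H R k j ω = H R k 0 (tau j ω)
  unfold H
  rw [tau_nil]
  by_cases hk : ω [] = k
  · rw [if_pos hk, if_pos hk, share_tau hR j ω (by omega)]
  · rw [if_neg hk, if_neg hk]

theorem int_ind (k : ℕ) (hk : k = 2 ∨ k = 9) (c : ℝ) :
    ∫ ω, (if ω [] = k then c else 0) ∂law = c / 2 := by
  have h : (fun ω : Field => if ω [] = k then c else 0) =
      Set.indicator {ω : Field | ω [] = k} (fun _ => c) := by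
    funext ω; simp [Set.indicator]
  rw [h, integral_indicator (meas_nil k), setIntegral_const, prob_nil k hk, smul_eq_mul]
  ring

theorem ae_branch : ∀ᵐ ω ∂law, ∀ w, 2 ≤ ω w := by
  filter_upwards [ae_two] with ω hω w
  rcases hω w with h | h <;> omega

theorem H_val (hR : 1 ≤ R) (k : ℕ) (hk : k = 2 ∨ k = 9) :
    (k + 1) * ∫ ω, H R k 0 ω ∂law = 1 / 2 := by
  have h1 : ∑ j ∈ range (k + 1), ∫ ω, H R k j ω ∂law = (k + 1) * ∫ ω, H R k 0 ω ∂law := by
    rw [Finset.sum_congr rfl fun j hj => H_exch hR k j (by rw [mem_range] at hj; omega)]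
    rw [Finset.sum_const, card_range, nsmul_eq_mul]
    push_cast
    ring
  rw [← h1, ← integral_finsetSum _ fun j hj => H_int hR k j (by rw [mem_range] at hj; omega)]
  have h2 := int_ind k hk 1
  rw [← h2]
  refine integral_congr_ae ?_
  filter_upwards [ae_branch] with ω hω
  unfold H
  by_cases h : ω [] = k
  · simp only [if_pos h]
    rw [← h]
    exact share_sum hR ω hω
  · simp only [if_neg h, Finset.sum_const_zero]

theorem G_val (hR : 1 ≤ R) : 10 * ∫ ω, G R 9 0 ω ∂law ≤ R / 2 := by
  have h1 : ∑ j ∈ range (9 + 1), ∫ ω, G R 9 j ω ∂law = 10 * ∫ ω, G R 9 0 ω ∂law := by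
    rw [Finset.sum_congr rfl fun j hj => G_exch hR 9 j (by rw [mem_range] at hj; omega)]
    rw [Finset.sum_const, card_range, nsmul_eq_mul]
    norm_num
  rw [← h1, ← integral_finsetSum _ fun j hj => G_int hR 9 j (by rw [mem_range] at hj; omega)]
  have h2 := int_ind 9 (Or.inr rfl) R
  rw [← h2]
  refine integral_mono_ae (integrable_finsetSum _ fun j hj =>
    G_int hR 9 j (by rw [mem_range] at hj; omega)) ?_ ?_
  · exact Integrable.of_bound (Measurable.ite (meas_nil 9) measurable_const
      measurable_const).aestronglyMeasurable R (ae_of_all _ fun ω => by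
        split_ifs <;> simp <;> linarith [abs_of_nonneg (by linarith : 0 ≤ R)])
  · filter_upwards [ae_branch] with ω hω
    unfold G
    by_cases h : ω [] = 9
    · simp only [if_pos h]
      have h3 : ∑ j ∈ range (9 + 1), xi R (ω []) (ω [j]) * share R j ω ≤
          ∑ j ∈ range (9 + 1), R * share R j ω :=
        Finset.sum_le_sum fun j _ => mul_le_mul_of_nonneg_right (xi_le hR _ _) (share_nonneg hR _ _)
      refine h3.trans ?_
      rw [← Finset.mul_sum]
      have h4 := share_sum hR ω hω
      rw [h] at h4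
      rw [h4, mul_one]
    · simp only [if_neg h, Finset.sum_const_zero]
      exact le_rfl

theorem xi0_bound (hR : 1 ≤ R) (ω : Field) : |xi0 R ω| ≤ R := by
  unfold xi0
  rw [abs_of_pos (xi_pos hR _ _)]
  exact xi_le hR _ _

theorem share_bound (hR : 1 ≤ R) (ω : Field) : |share R 0 ω| ≤ 1 := by
  rw [abs_of_nonneg (share_nonneg hR _ _)]
  exact share_le hR 0 ω (Nat.zero_le _)

/-- `E ξ_0 = γ = (R + 3)/4` -/
theorem mean_xi0 : ∫ ω, xi0 R ω ∂law = (R + 3) / 4 := by
  have h : ∀ ω : Field, xi0 R ω = 1 + Set.indicator {ω : Field | ω [] = 9 ∧ ω [0] = 9}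
      (fun _ => R - 1) ω := by
    intro ω
    unfold xi0 xi
    by_cases hc : ω [] = 9 ∧ ω [0] = 9
    · rw [if_pos hc, Set.indicator_of_mem (by exact hc)]; ring
    · rw [if_neg hc, Set.indicator_of_notMem (by exact hc)]; ring
  have hm : MeasurableSet {ω : Field | ω [] = 9 ∧ ω [0] = 9} :=
    (meas_nil 9).inter (measurable_pi_apply (X := fun _ : List ℕ => ℕ) [0]
      (measurableSet_singleton 9))
  simp only [h]
  rw [integral_add (integrable_const _) ((integrable_const _).indicator hm), integral_const,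
    integral_indicator hm, setIntegral_const, prob_pair 9 9 (Or.inr rfl) (Or.inr rfl)]
  simp
  ring

/-- expected share: `Σ_k p_k/(k+1) = 13/60` -/
theorem mean_share (hR : 1 ≤ R) : ∫ ω, share R 0 ω ∂law = 13 / 60 := by
  have h2 := H_val hR 2 (Or.inl rfl)
  have h9 := H_val hR 9 (Or.inr rfl)
  have h : ∫ ω, share R 0 ω ∂law = ∫ ω, H R 2 0 ω ∂law + ∫ ω, H R 9 0 ω ∂law := by
    rw [← integral_add (H_int hR 2 0 (by omega)) (H_int hR 9 0 (by omega))]
    refine integral_congr_ae ?_
    filter_upwards [ae_two] with ω hω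
    unfold H
    rcases hω [] with h | h <;> simp [h]
  rw [h]
  push_cast at h2 h9
  linarith

/-- upper bound for `E(ξ_0 𝒞(T_0^*)/𝒞(T))` -/
theorem mean_prod_le (hR : 1 ≤ R) : ∫ ω, xi0 R ω * share R 0 ω ∂law ≤ 1 / 6 + R / 20 := by
  have h2 := H_val hR 2 (Or.inl rfl)
  have h9 := G_val hR
  have h : ∫ ω, xi0 R ω * share R 0 ω ∂law = ∫ ω, H R 2 0 ω ∂law + ∫ ω, G R 9 0 ω ∂law := by
    rw [← integral_add (H_int hR 2 0 (by omega)) (G_int hR 9 0 (by omega))]
    refine integral_congr_ae ?_
    filter_upwards [ae_two] with ω hω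
    unfold H G xi0
    rcases hω [] with h | h <;> simp [h, xi]
  rw [h]
  push_cast at h2
  linarith

theorem cov_le (hR : 1 ≤ R) :
    cov[xi0 R, fun ω => condT0star R ω / condT R ω; law] ≤ -((R - 1) / 240) := by
  have e : (fun ω => condT0star R ω / condT R ω) = share R 0 := rfl
  have hX : MemLp (xi0 R) 2 law := by
    have h1 : Integrable (xi0 R) law := Integrable.of_bound
      (meas_xi R 0).aestronglyMeasurable R (ae_of_all _ fun ω => xi0_bound hR ω)
    exact MemLp.of_bound (meas_xi R 0).aestronglyMeasurable R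
      (ae_of_all _ fun ω => xi0_bound hR ω)
  have hY : MemLp (share R 0) 2 law :=
    MemLp.of_bound (meas_share R 0).aestronglyMeasurable 1
      (ae_of_all _ fun ω => share_bound hR ω)
  rw [e, covariance_eq_sub hX hY, mean_xi0, mean_share hR]
  have h := mean_prod_le hR
  have e2 : ∫ ω, (xi0 R * share R 0) ω ∂law = ∫ ω, xi0 R ω * share R 0 ω ∂law := rfl
  rw [e2]
  nlinarith

/-- In the model with `p_2 = p_9 = 1/2`, conductance `R > 1` between vertices of index `9` and `1`
on all other edges (`γ = (R+3)/4 < ∞`, unequal `γ_{k,m}`, `ξ_0` non-degenerate) the covariance of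
`ξ_0` and `𝒞(T_0^*)/𝒞(T)` is negative; consequently the speed `v = v_SRW - (2/γ) Cov` is
larger than the speed `v_SRW` of simple random walk. -/
theorem result (R : ℝ) (hR : 1 < R) :
    (∫ ω, xi0 R ω ∂law = (R + 3) / 4) ∧
    law.real {ω | xi0 R ω = R} = 1 / 4 ∧ law.real {ω | xi0 R ω = 1} = 3 / 4 ∧
    (∀ᵐ ω ∂law, 1 ≤ condT0 R ω ∧ 1 ≤ condT R ω) ∧
    cov[xi0 R, fun ω => condT0star R ω / condT R ω; law] ≤ -((R - 1) / 240) ∧
    ∀ γ v vSRW : ℝ, γ = ∫ ω, xi0 R ω ∂law →
      vSRW = ∫ k, ((k : ℝ) - 1) / (k + 1) ∂idxLaw →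
      v = vSRW - 2 / γ * cov[xi0 R, fun ω => condT0star R ω / condT R ω; law] →
      vSRW + (R - 1) / (30 * (R + 3)) ≤ v ∧ vSRW < v := by
  have hR' := hR.le
  have hcov := cov_le hR'
  have h1 : law.real {ω | xi0 R ω = R} = 1 / 4 := by
    have : {ω : Field | xi0 R ω = R} = {ω | ω [] = 9 ∧ ω [0] = 9} := by
      ext ω
      simp only [Set.mem_ofPred_eq, xi0, xi]
      by_cases hc : ω [] = 9 ∧ ω [0] = 9
      · simp [hc]
      · simp only [hc, if_false, iff_false]; exact hR.ne
    rw [this]
    exact prob_pair 9 9 (Or.inr rfl) (Or.inr rfl)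
  refine ⟨mean_xi0, h1, ?_, ?_, hcov, ?_⟩
  · have hm : MeasurableSet {ω : Field | xi0 R ω = R} :=
      (meas_xi R 0) (measurableSet_singleton R)
    have h2 := measureReal_compl (μ := law) hm
    have h3 : {ω : Field | xi0 R ω = R}ᶜ = {ω | xi0 R ω = 1} := by
      ext ω
      simp only [Set.mem_compl_iff, Set.mem_ofPred_eq, xi0, xi]
      by_cases hc : ω [] = 9 ∧ ω [0] = 9
      · simp [hc, hR.ne']
      · simp [hc, hR.ne]
    rw [h3, h1] at h2
    rw [h2]
    simp
    norm_num
  · filter_upwards [ae_branch] with ω hω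
    exact ⟨condInf_ge hR' _ _ (hω _) (fun w => hω _),
      condInf_ge hR' _ _ (by have := hω []; omega) hω⟩
  · intro γ v vSRW hγ _ hv
    rw [mean_xi0] at hγ
    have hγ0 : 0 < γ := by rw [hγ]; linarith
    have h2 : (R - 1) / (30 * (R + 3)) ≤
        -(2 / γ * cov[xi0 R, fun ω => condT0star R ω / condT R ω; law]) := by
      have h3 : 2 / γ * ((R - 1) / 240) = (R - 1) / (30 * (R + 3)) := by
        rw [hγ]
        have : R + 3 ≠ 0 := by linarith
        field_simp
        ring
      rw [← h3, ← mul_neg]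
      exact mul_le_mul_of_nonneg_left (by linarith) (by positivity)
    have h4 : 0 < (R - 1) / (30 * (R + 3)) := div_pos (by linarith) (by linarith)
    constructor <;> linarith

end

end Pool.Agent.Results.MP_8be476_pr.NegativeCovariance
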